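import Pool.Agent.H651Z.Nev.Series

set_option autoImplicit false

open Filter Topology Complex
open scoped Nat

noncomputable section

namespace Pool.Agent.H651Z.Nev

theorem phi_inj2 {a b : ℂ} (h0 : exp a = exp b) (h1 : exp (-(mu : ℂ) * a) = exp (-(mu : ℂ) * b)) :
    a = b := by
  obtain ⟨n, hn⟩ := Complex.exp_eq_exp_iff_exists_int.1 h0
  obtain ⟨m, hm⟩ := Complex.exp_eq_exp_iff_exists_int.1 h1
  have h2 : (2 * Real.pi * I : ℂ) ≠ 0 := Complex.two_pi_I_ne_zero
  have h3 : (-(mu : ℂ) * n - m) * (2 * Real.pi * I) = 0 := by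
    rw [hn] at hm
    linear_combination hm
  have h4 : -(mu : ℂ) * n - m = 0 := (mul_eq_zero.1 h3).resolve_right h2
  have h5 : mu * n = ((-m : ℤ) : ℝ) := by
    have : ((mu * n : ℝ) : ℂ) = (((-m : ℤ) : ℝ) : ℂ) := by
      push_cast
      linear_combination -h4
    exact_mod_cast this
  by_cases hn0 : n = 0
  · simpa [hn0] using hn
  · exact absurd h5 ((mu_irr.mul_intCast hn0).ne_int _)

theorem phi_inj : Function.Injective phi := fun _ _ h =>
  phi_inj2 (congrFun h 0) (congrFun h 1)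

theorem arc_eq (γ : ℂ → (Fin 3 → ℂ)) (U : Set ℂ) (hU : IsOpen U) (hc : IsPreconnected U)
    (hγ : ∀ t ∈ U, HasDerivAt γ (ZZ (γ t)) t) (a : ℂ) (ha : a ∈ U) (b : ℂ) (hab : γ a = phi b)
    (t : ℂ) (ht : t ∈ U) : γ t = phi (t - a + b) := by
  have const : ∀ f : ℂ → ℂ, (∀ s ∈ U, HasDerivAt f 0 s) → ∀ s ∈ U, f s = f a := by
    intro f hf s hs
    exact hU.is_const_of_deriv_eq_zero hc
      (fun s hs => (hf s hs).differentiableAt.differentiableWithinAt)
      (fun s hs => (hf s hs).deriv) hs ha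
  have h0 : ∀ s ∈ U, γ s 0 = phi (s - a + b) 0 := by
    intro s hs
    have := const (fun s => γ s 0 * exp (-s)) (fun s hs => by
      have h1 : HasDerivAt (fun s => γ s 0) (γ s 0) s := hasDerivAt_pi.1 (hγ s hs) 0
      refine (h1.mul (hasDerivAt_neg' s).cexp).congr_deriv ?_
      ring) s hs
    simp only [hab] at this
    have e : γ s 0 = γ s 0 * exp (-s) * exp s := by
      rw [mul_assoc, ← Complex.exp_add]; simp
    rw [e, this]
    simp only [phi, Matrix.cons_val_zero]
    rw [← Complex.exp_add, ← Complex.exp_add]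
    congr 1
    ring
  have h1 : ∀ s ∈ U, γ s 1 = phi (s - a + b) 1 := by
    intro s hs
    have := const (fun s => γ s 1 * exp ((mu : ℂ) * s)) (fun s hs => by
      have h1 : HasDerivAt (fun s => γ s 1) (-(mu : ℂ) * γ s 1) s := hasDerivAt_pi.1 (hγ s hs) 1
      refine (h1.mul ((hasDerivAt_id' s).const_mul (mu : ℂ)).cexp).congr_deriv ?_
      ring) s hs
    simp only [hab] at this
    have e : γ s 1 = γ s 1 * exp ((mu : ℂ) * s) * exp (-(mu : ℂ) * s) := by
      rw [mul_assoc, ← Complex.exp_add]; simp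
    rw [e, this]
    simp only [phi, Matrix.cons_val_one, Matrix.cons_val_zero]
    rw [← Complex.exp_add, ← Complex.exp_add]
    congr 1
    ring
  have h2 : γ t 2 = phi (t - a + b) 2 := by
    have := const (fun s => γ s 2 - phi (s - a + b) 2) (fun s hs => by
      have g1 : HasDerivAt (fun s => γ s 2) (ser cg (γ s)) s := hasDerivAt_pi.1 (hγ s hs) 2
      have g2 : HasDerivAt (fun s => phi s 2) (ser cg (phi (s - a + b))) (s - a + b) :=
        hasDerivAt_pi.1 (hasDerivAt_phi _) 2
      have g3 := g2.comp s (((hasDerivAt_id' s).sub_const a).add_const b)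
      refine (g1.sub g3).congr_deriv ?_
      rw [ser_congr cg (h0 s hs) (h1 s hs)]
      ring) t ht
    simp only [hab, sub_self, zero_add] at this
    exact sub_eq_zero.1 this
  funext i
  fin_cases i
  · exact h0 t ht
  · exact h1 t ht
  · exact h2

theorem range_phi : Set.range phi = leaf ZZ (phi 0) := by
  apply Set.Subset.antisymm
  · rintro _ ⟨ζ, rfl⟩
    exact Relation.TransGen.single ⟨phi, Set.univ, isOpen_univ, isPreconnected_univ,
      fun t _ => ⟨hasDerivAt_phi t, ZZ_ne t⟩, ⟨0, trivial, rfl⟩, ⟨ζ, trivial, rfl⟩⟩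
  · have step : ∀ p q, SameArc ZZ p q → p ∈ Set.range phi → q ∈ Set.range phi := by
      rintro p q ⟨γ, U, hU, hc, hγ, ⟨a, ha, rfl⟩, ⟨t, ht, rfl⟩⟩ ⟨b, hb⟩
      exact ⟨_, (arc_eq γ U hU hc (fun t ht => (hγ t ht).1) a ha b hb.symm t ht).symm⟩
    intro q hq
    induction hq with
    | single h => exact step _ _ h ⟨0, rfl⟩
    | tail _ h ih => exact step _ _ h ih

theorem poly_upper (p : Polynomial ℂ) :
    ∃ (A : ℝ) (M : ℕ), 0 ≤ A ∧ ∀ y : ℝ, 1 ≤ y → ‖p.eval (y : ℂ)‖ ≤ A * y ^ M := by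
  refine ⟨∑ i ∈ Finset.range (p.natDegree + 1), ‖p.coeff i‖, p.natDegree, by positivity,
    fun y hy => ?_⟩
  rw [Polynomial.eval_eq_sum_range, Finset.sum_mul]
  refine (norm_sum_le _ _).trans (Finset.sum_le_sum fun i hi => ?_)
  rw [norm_mul, norm_pow, Complex.norm_real, Real.norm_eq_abs, abs_of_nonneg (by linarith)]
  have : i ≤ p.natDegree := by simpa [Nat.lt_succ_iff] using hi
  gcongr

theorem poly_lower (p : Polynomial ℂ) (hp : p ≠ 0) :
    ∃ c : ℝ, 0 < c ∧ ∀ᶠ y : ℝ in atTop, c ≤ ‖p.eval (y : ℂ)‖ := by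
  by_cases h : 0 < p.degree
  · have := Polynomial.tendsto_norm_atTop p h (l := atTop) (z := fun y : ℝ => (y : ℂ))
      (by simpa using tendsto_abs_atTop_atTop)
    exact ⟨1, one_pos, this.eventually_ge_atTop 1⟩
  · have h0 := Polynomial.eq_C_of_degree_le_zero (not_lt.1 h)
    refine ⟨‖p.coeff 0‖, ?_, Eventually.of_forall fun y => ?_⟩
    · rw [norm_pos_iff]
      intro h1
      rw [h1] at h0
      exact hp (by simpa using h0)
    · rw [h0]; simp

theorem transc (F : ℝ → ℂ) (hF : ∀ N : ℕ, ∃ c : ℝ, 0 < c ∧ ∀ y : ℝ, 1 ≤ y → c * y ^ N ≤ ‖F y‖)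
    (q : Polynomial (Polynomial ℂ))
    (h : ∀ y : ℝ, 1 ≤ y → q.eval₂ (Polynomial.evalRingHom (y : ℂ)) (F y) = 0) : q = 0 := by
  by_contra hq
  obtain ⟨c, hc, hlow⟩ := poly_lower q.leadingCoeff (Polynomial.leadingCoeff_ne_zero.2 hq)
  choose A M hA hAM using fun j => poly_upper (q.coeff j)
  set d := q.natDegree with hd
  let A' := ∑ j ∈ Finset.range d, A j
  let M' := (Finset.range d).sup M
  obtain ⟨c1, hc1, hF1⟩ := hF 1
  obtain ⟨c2, hc2, hF2⟩ := hF (M' + 1)
  obtain ⟨y, hy1, hy2, hy3, hy4⟩ := (hlow.and ((eventually_ge_atTop 1).and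
    ((eventually_ge_atTop (1 / c1)).and (eventually_gt_atTop (A' / (c * c2)))))).exists
  have hFy : 1 ≤ ‖F y‖ := by
    have := hF1 y hy2
    rw [div_le_iff₀ hc1] at hy3
    rw [pow_one] at this
    linarith
  have h1 := h y hy2
  rw [Polynomial.eval₂_eq_sum_range, Finset.sum_range_succ, ← hd] at h1
  have h2 : ‖(q.coeff d).eval (y : ℂ) * F y ^ d‖ =
      ‖∑ j ∈ Finset.range d, (q.coeff j).eval (y : ℂ) * F y ^ j‖ := by
    rw [← norm_neg]
    congr 1
    simp only [Polynomial.coe_evalRingHom] at h1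
    linear_combination -h1
  have h3 : ‖∑ j ∈ Finset.range d, (q.coeff j).eval (y : ℂ) * F y ^ j‖ * ‖F y‖ ≤
      A' * y ^ M' * ‖F y‖ ^ d := by
    calc _ ≤ (∑ j ∈ Finset.range d, ‖(q.coeff j).eval (y : ℂ) * F y ^ j‖) * ‖F y‖ := by
          gcongr; exact norm_sum_le _ _
      _ ≤ ∑ j ∈ Finset.range d, A j * y ^ M' * ‖F y‖ ^ d := by
          rw [Finset.sum_mul]
          refine Finset.sum_le_sum fun j hj => ?_
          have e1 : M j ≤ M' := Finset.le_sup hj
          have e2 : j + 1 ≤ d := Finset.mem_range.1 hj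
          have e3 := hA j
          rw [norm_mul, norm_pow, mul_assoc, ← pow_succ]
          refine mul_le_mul ((hAM j y hy2).trans ?_) (pow_le_pow_right₀ hFy e2) (by positivity)
            (by positivity)
          gcongr
      _ = _ := by rw [← Finset.sum_mul, ← Finset.sum_mul]
  rw [← h2, norm_mul, norm_pow] at h3
  have h4 : c * ‖F y‖ ≤ A' * y ^ M' := by
    have hp : 0 < ‖F y‖ ^ d := by positivity
    have h5 : c ≤ ‖(q.coeff d).eval (y : ℂ)‖ := hy1
    have : c * ‖F y‖ * ‖F y‖ ^ d ≤ A' * y ^ M' * ‖F y‖ ^ d := by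
      refine le_trans ?_ h3
      have : 0 ≤ ‖F y‖ * ‖F y‖ ^ d := by positivity
      nlinarith
    exact le_of_mul_le_mul_right this hp
  have h6 := hF2 y hy2
  rw [div_lt_iff₀ (by positivity)] at hy4
  have hp : 0 < y ^ M' := by positivity
  have : c * (c2 * y ^ (M' + 1)) ≤ A' * y ^ M' := le_trans (by gcongr) h4
  rw [pow_succ] at this
  nlinarith

theorem ser_grow (c : ℕ → ℝ) (hc : Small c) (σ : ℝ) (hσ : |σ| = 1) (hpos : ∀ n, 0 < σ * c n)
    (x : ℝ) (hx : 1 ≤ x) (z : ℂ) (N : ℕ) :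
    ∃ c' : ℝ, 0 < c' ∧ ∀ y : ℝ, 1 ≤ y → c' * y ^ N ≤ ‖ser c ![(x : ℂ), (y : ℂ), z]‖ := by
  refine ⟨σ * c N, hpos N, fun y hy => ?_⟩
  have e : ser c ![(x : ℂ), (y : ℂ), z] = ((∑' n, c n * (x ^ mm n * y ^ (n + 1)) : ℝ) : ℂ) := by
    rw [Complex.ofReal_tsum]
    simp [ser]
  have hs : Summable fun n => c n * (x ^ mm n * y ^ (n + 1)) := by
    refine Summable.of_norm_bounded (summable_fact (x ^ 4 * y)) fun n => ?_
    rw [norm_mul, Real.norm_eq_abs, Real.norm_eq_abs, abs_of_nonneg (a := _ * _) (by positivity),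
      mul_pow, ← pow_mul]
    calc _ ≤ 1 / ((n + 1)! : ℝ) * (x ^ (4 * (n + 1)) * y ^ (n + 1)) := by
          refine mul_le_mul (hc n) ?_ (by positivity) (by positivity)
          gcongr
          exact mm_le n
      _ = _ := by ring
  rw [e, Complex.norm_real, Real.norm_eq_abs, ← one_mul |_|, ← hσ, ← abs_mul, ← tsum_mul_left]
  refine le_trans ?_ (le_abs_self _)
  refine le_trans ?_ ((hs.mul_left σ).le_tsum N fun n _ => ?_)
  · rw [← mul_assoc]
    have h1 : y ^ N ≤ x ^ mm N * y ^ (N + 1) := by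
      have h2 : y ^ N ≤ y ^ (N + 1) := pow_le_pow_right₀ hy (by omega)
      have h3 : 1 ≤ x ^ mm N := one_le_pow₀ hx
      have h4 : 0 ≤ y ^ (N + 1) := by positivity
      nlinarith
    exact mul_le_mul_of_nonneg_left h1 (hpos N).le
  · rw [← mul_assoc]
    exact mul_nonneg (hpos n).le (by positivity)

/-- substitute a number for the first variable -/
def slice (x : ℂ) (Q : MvPolynomial (Fin 3) ℂ) : Polynomial (Polynomial ℂ) :=
  MvPolynomial.aeval ![Polynomial.C (Polynomial.C x), Polynomial.C Polynomial.X, Polynomial.X] Q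

theorem slice_eval (x y z : ℂ) (Q : MvPolynomial (Fin 3) ℂ) :
    (slice x Q).eval₂ (Polynomial.evalRingHom y) z = MvPolynomial.eval ![x, y, z] Q := by
  unfold slice
  induction Q using MvPolynomial.induction_on with
  | C a => simp
  | add p q hp hq => rw [map_add, map_add, Polynomial.eval₂_add, hp, hq]
  | mul_X p i hp =>
    rw [map_mul, map_mul, Polynomial.eval₂_mul, hp]
    fin_cases i <;> simp

theorem eq_zero_of_real (Q : MvPolynomial (Fin 3) ℂ)
    (h : ∀ (x : ℝ) (y z : ℂ), 1 ≤ x → MvPolynomial.eval ![(x : ℂ), y, z] Q = 0) : Q = 0 := by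
  have hinf : ((fun x : ℝ => (x : ℂ)) '' Set.Ici 1).Infinite :=
    (Set.Ici_infinite 1).image Complex.ofReal_injective.injOn
  refine MvPolynomial.funext_set (fun _ => (fun x : ℝ => (x : ℂ)) '' Set.Ici 1) (fun _ => hinf) ?_
  intro w hw
  obtain ⟨x, hx, hx'⟩ := hw 0 trivial
  have := h x (w 1) (w 2) hx
  rw [map_zero, ← this]
  congr 2
  funext i
  fin_cases i
  · exact hx'.symm
  · rfl
  · rfl

theorem not_hP : ¬ IsHP ZZ := by
  rintro ⟨h, P, -, hP⟩
  have h0 : P 0 = 0 := by
    apply eq_zero_of_real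
    intro x y z hx
    let e : MvPolynomial (Fin 3) ℂ → Polynomial ℂ := fun Q => (slice x Q).eval (Polynomial.C z)
    have he : ∀ Q (y : ℂ), (e Q).eval y = MvPolynomial.eval ![(x : ℂ), y, z] Q := by
      intro Q y
      rw [← slice_eval]
      have := Polynomial.hom_eval₂ (slice x Q) (RingHom.id _) (Polynomial.evalRingHom y)
        (Polynomial.C z)
      simpa [e] using this
    have key := transc (fun y : ℝ => ser cg ![(x : ℂ), (y : ℂ), z])
      (ser_grow cg small_cg 1 abs_one (fun n => by unfold cg; positivity) x hx z)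
      (Polynomial.C (e (P 0)) * Polynomial.X - Polynomial.C (Polynomial.C (x : ℂ) * e (P 2)))
      (by
        intro y _
        have a0 := hP ![(x : ℂ), (y : ℂ), z] 0
        have a2 := hP ![(x : ℂ), (y : ℂ), z] 2
        simp only [ZZ, Matrix.cons_val_zero, Matrix.cons_val] at a0 a2
        simp only [Polynomial.eval₂_sub, Polynomial.eval₂_mul, Polynomial.eval₂_C,
          Polynomial.eval₂_X, Polynomial.coe_evalRingHom, Polynomial.eval_mul, Polynomial.eval_C,
          he]
        linear_combination MvPolynomial.eval ![(x : ℂ), (y : ℂ), z] (P 0) * a2 -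
          MvPolynomial.eval ![(x : ℂ), (y : ℂ), z] (P 2) * a0)
    have := congrArg (fun q => q.coeff 1) key
    simp only [Polynomial.coeff_sub, Polynomial.coeff_C_mul_X, if_true, Polynomial.coeff_C_succ,
      sub_zero, Polynomial.coeff_zero] at this
    rw [← he, this, Polynomial.eval_zero]
  have := hP 1 0
  simp [ZZ, h0] at this

theorem diff_eval (v : ℂ → Fin 3 → ℂ) (hv : ∀ i, Differentiable ℂ fun y => v y i)
    (Q : MvPolynomial (Fin 3) ℂ) : Differentiable ℂ fun y => MvPolynomial.eval (v y) Q := by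
  induction Q using MvPolynomial.induction_on with
  | C a => simp
  | add p q hp hq => simp only [map_add]; exact hp.add hq
  | mul_X p i hp => simp only [map_mul, MvPolynomial.eval_X]; exact hp.mul (hv i)

theorem zariski (Q : MvPolynomial (Fin 3) ℂ) (hQ : ∀ ζ, MvPolynomial.eval (phi ζ) Q = 0) :
    Q = 0 := by
  apply eq_zero_of_real
  intro x y z hx
  let H : ℂ → ℂ := fun y => MvPolynomial.eval ![(x : ℂ), y, ser cf ![(x : ℂ), y, 0]] Q
  have hH : Differentiable ℂ H := by
    apply diff_eval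
    intro i
    fin_cases i
    · simp
    · simp
    · refine (ser_diff cf small_cf).comp (differentiable_pi.2 fun j => ?_)
      fin_cases j <;> simp
  let ζ : ℕ → ℂ := fun n => (Real.log x : ℂ) + n * (2 * Real.pi * I)
  have hζ : ∀ n, exp (ζ n) = x := by
    intro n
    simp only [ζ]
    rw [Complex.exp_add, Complex.exp_nat_mul_two_pi_mul_I, mul_one, ← Complex.ofReal_exp,
      Real.exp_log (by linarith)]
  let p : ℕ → ℂ := fun n => exp (-(mu : ℂ) * ζ n)
  have hp : Function.Injective p := by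
    intro a b hab
    have := phi_inj2 ((hζ a).trans (hζ b).symm) hab
    simp only [ζ, add_right_inj] at this
    exact_mod_cast mul_right_cancel₀ Complex.two_pi_I_ne_zero this
  have hsub : Set.range p ⊆ Metric.sphere 0 (Real.exp (-mu * Real.log x)) := by
    rintro _ ⟨n, rfl⟩
    simp [p, ζ, Complex.norm_exp]
  have hz : ∀ n, H (p n) = 0 := by
    intro n
    have := hQ (ζ n)
    simp only [phi, base, hζ] at this
    exact this
  obtain ⟨z₀, -, hacc⟩ := (Set.infinite_range_of_injective hp).exists_accPt_of_subset_isCompact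
    (isCompact_sphere _ _) hsub
  have hall := (hH.differentiableOn.analyticOnNhd isOpen_univ).eqOn_zero_of_preconnected_of_mem_closure
    isPreconnected_univ (Set.mem_univ z₀) (by
      rw [accPt_principal_iff_clusterPt, ← mem_closure_iff_clusterPt] at hacc
      refine closure_mono (Set.sdiff_subset_sdiff_left ?_) hacc
      rintro _ ⟨n, rfl⟩
      exact hz n)
  have key := transc (fun y : ℝ => ser cf ![(x : ℂ), (y : ℂ), 0])
    (ser_grow cf small_cf (-1) (by simp) (fun n => by
      have := eps_le n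
      have h1 : (0 : ℝ) < 1 / (n + 1)! := by positivity
      have := div_neg_of_pos_of_neg h1 (by linarith : eps n < 0)
      unfold cf
      linarith) x hx 0) (slice x Q) (fun y _ => by
      rw [slice_eval]
      exact hall (Set.mem_univ _))
  rw [← slice_eval, key, Polynomial.eval₂_zero]

end Pool.Agent.H651Z.Nev
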