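import Mathlib

set_option autoImplicit false

/-! Leaves of holomorphic vector fields on `ℂ^k`, smooth (1,1)-forms on `ℙ^k` in homogeneous
coordinates, Nevanlinna currents of entire curves and their cluster points. -/

open Filter Topology
open scoped ContDiff ComplexConjugate

noncomputable section

namespace Pool.Agent.H651Z.Nev

variable {k : ℕ}

/-- `Z = h P` with `P` a polynomial vector field and `h` a holomorphic function. -/
def IsHP (Z : (Fin k → ℂ) → (Fin k → ℂ)) : Prop :=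
  ∃ (h : (Fin k → ℂ) → ℂ) (P : Fin k → MvPolynomial (Fin k) ℂ), Differentiable ℂ h ∧
    ∀ w i, Z w i = h w * MvPolynomial.eval w (P i)

/-- `p` and `q` lie on one local integral curve of `Z` that avoids the zeros of `Z` and is defined
on a connected open subset of `ℂ`. -/
def SameArc (Z : (Fin k → ℂ) → (Fin k → ℂ)) (p q : Fin k → ℂ) : Prop :=
  ∃ (γ : ℂ → (Fin k → ℂ)) (U : Set ℂ), IsOpen U ∧ IsPreconnected U ∧
    (∀ t ∈ U, HasDerivAt γ (Z (γ t)) t ∧ Z (γ t) ≠ 0) ∧ p ∈ γ '' U ∧ q ∈ γ '' U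

/-- The leaf of `Z` through `p`: the points joined to `p` by a finite chain of local integral
curves. -/
def leaf (Z : (Fin k → ℂ) → (Fin k → ℂ)) (p : Fin k → ℂ) : Set (Fin k → ℂ) :=
  {q | Relation.TransGen (SameArc Z) p q}

/-- A smooth (1,1)-form on `ℙ^k`, given by its pull-back `i ∑ a j l dW_j ∧ d(conj W_l)` to
`ℂ^(k+1) ∖ 0`: smooth coefficients, invariant under scaling and horizontal. -/
structure TestForm (k : ℕ) where
  a : Fin (k + 1) → Fin (k + 1) → (Fin (k + 1) → ℂ) → ℂ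
  smooth : ∀ j l, ContDiffOn ℝ ∞ (a j l) {W | W ≠ 0}
  inv : ∀ j l (c : ℂ) W, c ≠ 0 → W ≠ 0 → c * conj c * a j l (c • W) = a j l W
  hor₁ : ∀ l W, W ≠ 0 → ∑ j, a j l W * W j = 0
  hor₂ : ∀ j W, W ≠ 0 → ∑ l, a j l W * conj (W l) = 0

/-- Coefficients of the Fubini-Study form `(i/2π) ∂∂̄ log |W|^2`. -/
def fs (j l : Fin (k + 1)) (W : Fin (k + 1) → ℂ) : ℂ :=
  ((if j = l then ∑ i, W i * conj (W i) else 0) - conj (W j) * W l) /
    (2 * Real.pi * (∑ i, W i * conj (W i)) ^ 2)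

/-- The point `[1 : x]` in homogeneous coordinates. -/
def hom (x : Fin k → ℂ) : Fin (k + 1) → ℂ := Fin.cons 1 x

/-- The density with respect to Lebesgue measure on `ℂ` of the pull-back by `φ` of the form with
coefficients `a` (recall `i dζ ∧ d(conj ζ) = 2 dx ∧ dy`). -/
def density (a : Fin (k + 1) → Fin (k + 1) → (Fin (k + 1) → ℂ) → ℂ) (φ : ℂ → (Fin k → ℂ))
    (ζ : ℂ) : ℂ :=
  2 * ∑ j, ∑ l, a j l (hom (φ ζ)) * deriv (fun t => hom (φ t) j) ζ *
    conj (deriv (fun t => hom (φ t) l) ζ)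

/-- `∫_0^r dt/t ∫_{𝔻(t)} h`. -/
def nev (h : ℂ → ℂ) (r : ℝ) : ℂ := ∫ t in (0 : ℝ)..r, t⁻¹ • ∫ ζ in Metric.ball (0 : ℂ) t, h ζ

/-- The Nevanlinna characteristic `T(r)`. -/
def charT (φ : ℂ → (Fin k → ℂ)) (r : ℝ) : ℂ := nev (density fs φ) r

/-- The Nevanlinna current `τ_r` evaluated on a test form. -/
def current (φ : ℂ → (Fin k → ℂ)) (r : ℝ) (θ : TestForm k) : ℂ :=
  nev (density θ.a φ) r / charT φ r

/-- `τ` is a weak limit of `τ_{r_n}` along a sequence `r_n → ∞`. -/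
def IsClusterPoint (φ : ℂ → (Fin k → ℂ)) (τ : TestForm k → ℂ) : Prop :=
  ∃ r : ℕ → ℝ, Tendsto r atTop atTop ∧
    ∀ θ, Tendsto (fun n => current φ (r n) θ) atTop (𝓝 (τ θ))

/-- `θ` vanishes outside a compact subset of `U ⊆ ℂ^k`. -/
def SupportedIn (θ : TestForm k) (U : Set (Fin k → ℂ)) : Prop :=
  ∃ K : Set (Fin k → ℂ), IsCompact K ∧ K ⊆ U ∧ (∀ x, x ∉ K → ∀ j l, θ.a j l (hom x) = 0) ∧
    ∀ W, W ≠ 0 → W 0 = 0 → ∀ j l, θ.a j l W = 0

/-- The point `p ∈ ℂ^k` lies in the support of `τ`: `τ` vanishes on no neighbourhood of `p`. -/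
def InSupport (τ : TestForm k → ℂ) (p : Fin k → ℂ) : Prop :=
  ∀ U ∈ 𝓝 p, ∃ θ : TestForm k, SupportedIn θ U ∧ τ θ ≠ 0

end Pool.Agent.H651Z.Nev
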