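import Pool.Agent.H651Z.Nev.Defs

set_option autoImplicit false

open Filter Topology MeasureTheory Metric Set

noncomputable section

namespace Pool.Agent.H651Z.Nev

section
variable {G : Type} [NormedAddCommGroup G] [NormedSpace ℝ G]

def nv (h : ℂ → G) (r : ℝ) : G := ∫ t in (0 : ℝ)..r, t⁻¹ • ∫ ζ in ball (0 : ℂ) t, h ζ

omit [NormedSpace ℝ G] in
theorem intOn_ball (h : ℂ → G) (hc : Continuous h) (t : ℝ) : IntegrableOn h (ball (0 : ℂ) t) :=
  (hc.continuousOn.integrableOn_compact (isCompact_closedBall 0 t)).mono_set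
    ball_subset_closedBall

theorem vol_ball (t : ℝ) (ht : 0 ≤ t) : volume.real (ball (0 : ℂ) t) = Real.pi * t ^ 2 := by
  rw [Measure.real, Complex.volume_ball]
  simp [ht, mul_comm]

theorem nv_integrable [SecondCountableTopology G] (h : ℂ → G) (hc : Continuous h) (r : ℝ)
    (hr : 0 ≤ r) :
    IntervalIntegrable (fun t : ℝ => t⁻¹ • ∫ ζ in ball (0 : ℂ) t, h ζ) volume 0 r := by
  rw [intervalIntegrable_iff_integrableOn_Ioc_of_le hr]
  obtain ⟨M, hM⟩ := (isCompact_closedBall (0 : ℂ) r).exists_bound_of_continuousOn hc.continuousOn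
  have hM0 : 0 ≤ M := (norm_nonneg _).trans (hM 0 (mem_closedBall_self hr))
  have hmeas : StronglyMeasurable fun t : ℝ => ∫ ζ in ball (0 : ℂ) t, h ζ := by
    have e : (fun t : ℝ => ∫ ζ in ball (0 : ℂ) t, h ζ) = fun t : ℝ =>
        ∫ ζ, ({p : ℝ × ℂ | ‖p.2‖ < p.1}.indicator (fun p => h p.2)) (t, ζ) := by
      funext t
      rw [← integral_indicator measurableSet_ball]
      congr 1
      funext ζ
      simp [indicator]
    rw [e]
    refine StronglyMeasurable.integral_prod_right' ?_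
    refine StronglyMeasurable.indicator (hc.comp continuous_snd).stronglyMeasurable ?_
    exact (isOpen_lt (by fun_prop) continuous_fst).measurableSet
  refine Measure.integrableOn_of_bounded (M := M * Real.pi * r) (by simp) ?_ ?_
  · exact (measurable_inv.stronglyMeasurable.smul hmeas).aestronglyMeasurable
  · refine (ae_restrict_iff' measurableSet_Ioc).2 (Eventually.of_forall fun t ht => ?_)
    have ht0 : 0 < t := ht.1
    have h1 : ‖∫ ζ in ball (0 : ℂ) t, h ζ‖ ≤ M * volume.real (ball (0 : ℂ) t) :=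
      norm_setIntegral_le_of_norm_le_const measure_ball_lt_top fun ζ hζ =>
        hM ζ (closedBall_subset_closedBall ht.2 (ball_subset_closedBall hζ))
    rw [vol_ball t ht0.le] at h1
    rw [norm_smul, norm_inv, Real.norm_eq_abs, abs_of_pos ht0]
    calc _ ≤ t⁻¹ * (M * (Real.pi * t ^ 2)) := by gcongr
      _ = M * Real.pi * t := by field_simp
      _ ≤ _ := by have := Real.pi_pos; have := ht.2; gcongr

theorem nv_add [SecondCountableTopology G] (h g : ℂ → G) (hc : Continuous h) (gc : Continuous g)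
    (r : ℝ) (hr : 0 ≤ r) : nv (fun ζ => h ζ + g ζ) r = nv h r + nv g r := by
  unfold nv
  rw [← intervalIntegral.integral_add (nv_integrable h hc r hr) (nv_integrable g gc r hr)]
  congr 1
  funext t
  rw [integral_add (intOn_ball h hc t) (intOn_ball g gc t), smul_add]

theorem nv_norm_le [SecondCountableTopology G] (h : ℂ → G) (D : ℂ → ℝ)
    (Dc : Continuous D) (hD : ∀ ζ, ‖h ζ‖ ≤ D ζ) (r : ℝ) (hr : 0 ≤ r) : ‖nv h r‖ ≤ nv D r := by
  unfold nv
  refine intervalIntegral.norm_integral_le_of_norm_le hr (Eventually.of_forall fun t ht => ?_)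
    (nv_integrable D Dc r hr)
  rw [norm_smul, norm_inv, Real.norm_eq_abs, abs_of_pos ht.1, smul_eq_mul]
  refine mul_le_mul_of_nonneg_left ?_ (inv_nonneg.2 ht.1.le)
  exact norm_integral_le_of_norm_le (intOn_ball D Dc t) (Eventually.of_forall hD)

end

theorem nv_const_mul (c : ℂ) (h : ℂ → ℂ) (r : ℝ) : nv (fun ζ => c * h ζ) r = c * nv h r := by
  unfold nv
  rw [← intervalIntegral.integral_const_mul]
  congr 1
  funext t
  rw [integral_const_mul, mul_smul_comm]

theorem nv_const_mul_real (c : ℝ) (h : ℂ → ℝ) (r : ℝ) :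
    nv (fun ζ => c * h ζ) r = c * nv h r := by
  unfold nv
  rw [← intervalIntegral.integral_const_mul]
  congr 1
  funext t
  rw [integral_const_mul, mul_smul_comm]

theorem nv_ofReal (D : ℂ → ℝ) (r : ℝ) : nv (fun ζ => (D ζ : ℂ)) r = ((nv D r : ℝ) : ℂ) := by
  unfold nv
  rw [← intervalIntegral.integral_ofReal]
  congr 1
  funext t
  rw [integral_complex_ofReal]
  simp

theorem nv_sum {ι : Type} (s : Finset ι) (h : ι → ℂ → ℝ) (hc : ∀ i, Continuous (h i)) (r : ℝ)
    (hr : 0 ≤ r) : nv (fun ζ => ∑ i ∈ s, h i ζ) r = ∑ i ∈ s, nv (h i) r := by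
  classical
  induction s using Finset.induction_on with
  | empty => simp [nv]
  | insert a s ha ih =>
    simp only [Finset.sum_insert ha]
    rw [nv_add _ _ (hc a) (continuous_finsetSum _ fun i _ => hc i) r hr, ih]

theorem ball_upper (D : ℂ → ℝ) (hD0 : ∀ ζ, 0 ≤ D ζ) (C : ℝ)
    (hD : ∀ ζ, D ζ ≤ C * (1 + ζ.re ^ 2)⁻¹) (t : ℝ) (ht : 0 ≤ t) :
    ∫ ζ in ball (0 : ℂ) t, D ζ ≤ 2 * Real.pi * C * t := by
  have hC : 0 ≤ C := by simpa using (hD0 0).trans (hD 0)
  let g : ℝ × ℝ → ℝ := fun p => (C * (1 + p.1 ^ 2)⁻¹) * (Icc (-t) t).indicator (fun _ => 1) p.2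
  have hg : Integrable g (volume.prod volume) :=
    (integrable_inv_one_add_sq.const_mul C).mul_prod
      ((integrable_indicator_iff measurableSet_Icc).2 (by simp))
  have hg' : Integrable (fun ζ : ℂ => g (Complex.measurableEquivRealProd ζ)) :=
    (Complex.volume_preserving_equiv_real_prod.integrable_comp_emb
      Complex.measurableEquivRealProd.measurableEmbedding).2 hg
  have h1 : ∫ ζ : ℂ, g (Complex.measurableEquivRealProd ζ) = 2 * Real.pi * C * t := by
    rw [Complex.volume_preserving_equiv_real_prod.integral_comp']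
    change ∫ p, g p ∂(volume.prod volume) = _
    simp only [g]
    rw [integral_prod_mul (fun x : ℝ => C * (1 + x ^ 2)⁻¹)
      ((Icc (-t) t).indicator (fun _ => (1 : ℝ))), integral_const_mul,
      integral_univ_inv_one_add_sq, integral_indicator measurableSet_Icc]
    simp [ht]
    ring
  rw [← h1, ← integral_indicator measurableSet_ball]
  refine integral_mono_of_nonneg (Eventually.of_forall fun ζ => indicator_nonneg
    (fun ζ _ => hD0 ζ) ζ) hg' (Eventually.of_forall fun ζ => ?_)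
  by_cases hζ : ζ ∈ ball (0 : ℂ) t
  · have h2 : ζ.im ∈ Icc (-t) t :=
      abs_le.1 ((Complex.abs_im_le_norm ζ).trans (mem_ball_zero_iff.1 hζ).le)
    simp only [indicator_of_mem hζ, g, Complex.measurableEquivRealProd_apply, indicator_of_mem h2,
      mul_one]
    exact hD ζ
  · simp only [indicator_of_notMem hζ, g]
    exact mul_nonneg (by positivity) (indicator_nonneg (fun _ _ => zero_le_one) _)

theorem nv_upper (D : ℂ → ℝ) (Dc : Continuous D) (hD0 : ∀ ζ, 0 ≤ D ζ) (C : ℝ)
    (hD : ∀ ζ, D ζ ≤ C * (1 + ζ.re ^ 2)⁻¹) (r : ℝ) (hr : 0 ≤ r) :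
    nv D r ≤ 2 * Real.pi * C * r := by
  have hC : 0 ≤ C := by simpa using (hD0 0).trans (hD 0)
  have := intervalIntegral.integral_mono_on hr (nv_integrable D Dc r hr)
    (intervalIntegrable_const (c := 2 * Real.pi * C)) (fun t ht => by
      rcases ht.1.eq_or_lt with h | h
      · rw [← h]; simp; positivity
      · have := ball_upper D hD0 C hD t h.le
        rw [smul_eq_mul, inv_mul_le_iff₀ h]
        linarith)
  rw [intervalIntegral.integral_const, smul_eq_mul, sub_zero, mul_comm r] at this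
  exact this

theorem ball_lower (D : ℂ → ℝ) (Dc : Continuous D) (hD0 : ∀ ζ, 0 ≤ D ζ) (c : ℝ)
    (hD : ∀ ζ : ℂ, 0 < ζ.re → ζ.re < 1 → c ≤ D ζ) (t : ℝ) (ht : 1 ≤ t) :
    c * (t - 1) ≤ ∫ ζ in ball (0 : ℂ) t, D ζ := by
  let S : Set ℂ := Complex.measurableEquivRealProd ⁻¹' (Ioo 0 1 ×ˢ Ioo 0 (t - 1))
  have hSm : MeasurableSet S :=
    Complex.measurableEquivRealProd.measurable (measurableSet_Ioo.prod measurableSet_Ioo)
  have hvol : volume S = ENNReal.ofReal (t - 1) := by
    rw [Complex.volume_preserving_equiv_real_prod.measure_preimage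
      (measurableSet_Ioo.prod measurableSet_Ioo).nullMeasurableSet]
    change (volume.prod volume) _ = _
    rw [Measure.prod_prod]
    simp
  have hsub : S ⊆ ball (0 : ℂ) t := by
    rintro ζ ⟨⟨h1, h2⟩, ⟨h3, h4⟩⟩
    simp only [Complex.measurableEquivRealProd_apply] at h1 h2 h3 h4
    rw [mem_ball_zero_iff]
    have := Complex.norm_le_abs_re_add_abs_im ζ
    rw [abs_of_pos h1, abs_of_pos h3] at this
    linarith
  have h1 := setIntegral_ge_of_const_le_real (μ := volume) hSm (by rw [hvol]; simp)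
    (fun ζ hζ => hD ζ hζ.1.1 hζ.1.2) ((intOn_ball D Dc t).mono_set hsub)
  rw [Measure.real, hvol, ENNReal.toReal_ofReal (by linarith)] at h1
  exact h1.trans (setIntegral_mono_set (intOn_ball D Dc t) (Eventually.of_forall hD0)
    hsub.eventuallyLE)

theorem nv_lower (D : ℂ → ℝ) (Dc : Continuous D) (hD0 : ∀ ζ, 0 ≤ D ζ) (c : ℝ) (hc : 0 ≤ c)
    (hD : ∀ ζ : ℂ, 0 < ζ.re → ζ.re < 1 → c ≤ D ζ) (r : ℝ) (hr : 4 ≤ r) :
    c / 4 * r ≤ nv D r := by
  have hi := nv_integrable D Dc r (by linarith)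
  have hi1 : IntervalIntegrable (fun t : ℝ => t⁻¹ • ∫ ζ in ball (0 : ℂ) t, D ζ) volume 0 2 :=
    nv_integrable D Dc 2 (by norm_num)
  have hi2 : IntervalIntegrable (fun t : ℝ => t⁻¹ • ∫ ζ in ball (0 : ℂ) t, D ζ) volume 2 r :=
    hi1.symm.trans hi
  unfold nv
  rw [← intervalIntegral.integral_add_adjacent_intervals hi1 hi2]
  have h1 : 0 ≤ ∫ t in (0 : ℝ)..2, t⁻¹ • ∫ ζ in ball (0 : ℂ) t, D ζ :=
    intervalIntegral.integral_nonneg (by norm_num) fun t ht =>
      smul_nonneg (inv_nonneg.2 ht.1) (integral_nonneg hD0)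
  have h2 := intervalIntegral.integral_mono_on (by linarith : (2 : ℝ) ≤ r)
    (intervalIntegrable_const (c := c / 2)) hi2 (fun t ht => by
      have h3 := ball_lower D Dc hD0 c hD t (by linarith [ht.1])
      have h4 : 0 < t := by linarith [ht.1]
      rw [smul_eq_mul, le_inv_mul_iff₀ h4]
      nlinarith [ht.1])
  rw [intervalIntegral.integral_const, smul_eq_mul] at h2
  nlinarith

end Pool.Agent.H651Z.Nev
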