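import Pool.Agent.H651Z.Nev.Series
import Pool.Agent.H651Z.Nev.Int

set_option autoImplicit false

open Filter Topology Complex
open scoped ComplexConjugate

noncomputable section

namespace Pool.Agent.H651Z.Nev

def nsq (W : Fin 4 → ℂ) : ℝ := ∑ i, ‖W i‖ ^ 2

theorem nsq_cast (W : Fin 4 → ℂ) : ∑ i, W i * conj (W i) = (nsq W : ℂ) := by
  simp [nsq, Complex.mul_conj, Complex.normSq_eq_norm_sq]

theorem nsq_nonneg (W : Fin 4 → ℂ) : 0 ≤ nsq W := Finset.sum_nonneg fun _ _ => by positivity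

theorem le_nsq (W : Fin 4 → ℂ) (i : Fin 4) : ‖W i‖ ^ 2 ≤ nsq W :=
  Finset.single_le_sum (f := fun i => ‖W i‖ ^ 2) (fun _ _ => by positivity) (Finset.mem_univ i)

theorem nsq_pos (W : Fin 4 → ℂ) (hW : W ≠ 0) : 0 < nsq W := by
  obtain ⟨i, hi⟩ := Function.ne_iff.1 hW
  exact lt_of_lt_of_le (pow_pos (norm_pos_iff.2 hi) 2) (le_nsq W i)

theorem nsq_le (W : Fin 4 → ℂ) : nsq W ≤ 4 * ‖W‖ ^ 2 := by
  have h : ∀ i, ‖W i‖ ^ 2 ≤ ‖W‖ ^ 2 := fun i =>
    pow_le_pow_left₀ (norm_nonneg _) (norm_le_pi_norm W i) 2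
  simp only [nsq, Fin.sum_univ_four]
  linarith [h 0, h 1, h 2, h 3]

theorem form_hor (a : Fin 4 → Fin 4 → ℂ) (W v : Fin 4 → ℂ) (c : ℂ)
    (h1 : ∀ l, ∑ j, a j l * W j = 0) (h2 : ∀ j, ∑ l, a j l * conj (W l) = 0) :
    ∑ j, ∑ l, a j l * v j * conj (v l) =
      ∑ j, ∑ l, a j l * (v j - c * W j) * conj (v l - c * W l) := by
  have a0 := h1 0; have a1 := h1 1; have a2 := h1 2; have a3 := h1 3
  have b0 := h2 0; have b1 := h2 1; have b2 := h2 2; have b3 := h2 3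
  simp only [Fin.sum_univ_four, map_sub, map_mul] at *
  linear_combination c * (conj (v 0) * a0 + conj (v 1) * a1 + conj (v 2) * a2 + conj (v 3) * a3) +
    conj c * ((v 0 - c * W 0) * b0 + (v 1 - c * W 1) * b1 + (v 2 - c * W 2) * b2 +
      (v 3 - c * W 3) * b3)

theorem fs_eq (W : Fin 4 → ℂ) (j l : Fin 4) : fs (k := 3) j l W =
    ((if j = l then (nsq W : ℂ) else 0) - conj (W j) * W l) / (2 * Real.pi * (nsq W : ℂ) ^ 2) := by
  rw [← nsq_cast]
  rfl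

theorem fs_hor₁ (W : Fin 4 → ℂ) (l : Fin 4) : ∑ j : Fin 4, fs (k := 3) j l W * W j = 0 := by
  simp only [fs_eq, div_mul_eq_mul_div, ← Finset.sum_div, sub_mul, Finset.sum_sub_distrib, ite_mul,
    zero_mul, Finset.sum_ite_eq', Finset.mem_univ, if_true]
  rw [div_eq_zero_iff, ← nsq_cast]
  left
  simp only [Fin.sum_univ_four]
  ring

theorem fs_hor₂ (W : Fin 4 → ℂ) (j : Fin 4) :
    ∑ l : Fin 4, fs (k := 3) j l W * conj (W l) = 0 := by
  simp only [fs_eq, div_mul_eq_mul_div, ← Finset.sum_div, sub_mul, Finset.sum_sub_distrib, ite_mul,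
    zero_mul, Finset.sum_ite_eq, Finset.mem_univ, if_true]
  rw [div_eq_zero_iff, ← nsq_cast]
  left
  simp only [Fin.sum_univ_four]
  ring

theorem fs_form (W v : Fin 4 → ℂ) (hW : W ≠ 0) (h : ∑ j, v j * conj (W j) = 0) :
    2 * ∑ j : Fin 4, ∑ l : Fin 4, fs (k := 3) j l W * v j * conj (v l) =
      ((nsq v / (Real.pi * nsq W) : ℝ) : ℂ) := by
  have hn : (nsq W : ℂ) ≠ 0 := by exact_mod_cast (nsq_pos W hW).ne'
  have hp : (Real.pi : ℂ) ≠ 0 := by exact_mod_cast Real.pi_ne_zero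
  have e := nsq_cast v
  simp only [fs_eq, div_mul_eq_mul_div, ← Finset.sum_div, sub_mul, Finset.sum_sub_distrib,
    ite_mul, zero_mul, Finset.sum_ite_eq, Finset.mem_univ, if_true]
  push_cast
  field_simp
  simp only [Fin.sum_univ_four] at *
  linear_combination (nsq W : ℂ) * e -
    (W 0 * conj (v 0) + W 1 * conj (v 1) + W 2 * conj (v 2) + W 3 * conj (v 3)) * h

theorem nsq_min (W v : Fin 4 → ℂ) (c : ℂ) (h : ∑ j, v j * conj (W j) = 0) :
    nsq v ≤ nsq (fun j => v j + c * W j) := by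
  have h' := congrArg conj h
  have e : ((nsq (fun j => v j + c * W j) : ℝ) : ℂ) = ((nsq v + ‖c‖ ^ 2 * nsq W : ℝ) : ℂ) := by
    push_cast
    rw [← nsq_cast, ← nsq_cast, ← nsq_cast, ← Complex.conj_mul']
    simp only [Fin.sum_univ_four, map_add, map_mul, Complex.conj_conj, map_zero] at *
    linear_combination conj c * h + c * h'
  have e' := Complex.ofReal_injective e
  have := nsq_nonneg W
  rw [e']
  exact le_add_of_nonneg_right (by positivity)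

def PP (ζ : ℂ) : Fin 4 → ℂ := hom (phi ζ)
def dP (ζ : ℂ) : Fin 4 → ℂ := Fin.cons 0 (ZZ (phi ζ))

theorem PP_eq (ζ : ℂ) : PP ζ = ![1, exp ζ, exp (-(mu : ℂ) * ζ), ser cf (base ζ)] := rfl

theorem dP_eq (ζ : ℂ) :
    dP ζ = ![0, exp ζ, -(mu : ℂ) * exp (-(mu : ℂ) * ζ), ser cg (base ζ)] := by
  rw [dP, ZZ_phi]
  rfl

theorem PP_ne (ζ : ℂ) : PP ζ ≠ 0 := fun h => one_ne_zero (congrFun h 0)

theorem deriv_PP (ζ : ℂ) (j : Fin 4) : deriv (fun t => hom (phi t) j) ζ = dP ζ j := by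
  refine Fin.cases ?_ (fun i => ?_) j
  · simp [hom, dP]
  · exact (hasDerivAt_pi.1 (hasDerivAt_phi ζ) i).deriv

theorem phi_cont : Continuous phi :=
  continuous_iff_continuousAt.2 fun ζ => (hasDerivAt_phi ζ).continuousAt

theorem PP_cont : Continuous PP := by
  refine continuous_pi fun j => Fin.cases ?_ (fun i => ?_) j
  · exact continuous_const
  · exact (continuous_apply i).comp phi_cont

theorem dP_cont : Continuous dP := by
  refine continuous_pi fun j => Fin.cases ?_ (fun i => ?_) j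
  · exact continuous_const
  · exact (continuous_apply i).comp (ZZ_diff.continuous.comp phi_cont)

theorem nsq_cont : Continuous nsq := by
  unfold nsq
  fun_prop

def lam (ζ : ℂ) : ℂ := (∑ i, dP ζ i * conj (PP ζ i)) / nsq (PP ζ)

def hv (ζ : ℂ) (j : Fin 4) : ℂ := dP ζ j - lam ζ * PP ζ j

def DD (ζ : ℂ) : ℝ := nsq (hv ζ) / (Real.pi * nsq (PP ζ))

theorem lam_cont : Continuous lam := by
  have h1 := PP_cont
  have h2 := dP_cont
  refine Continuous.div ?_ (continuous_ofReal.comp (nsq_cont.comp h1)) fun ζ => ?_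
  · fun_prop
  · exact_mod_cast (nsq_pos _ (PP_ne ζ)).ne'

theorem hv_cont : Continuous hv := by
  have h1 := PP_cont
  have h2 := dP_cont
  have h3 := lam_cont
  unfold hv
  fun_prop

theorem DD_cont : Continuous DD :=
  (nsq_cont.comp hv_cont).div (continuous_const.mul (nsq_cont.comp PP_cont)) fun ζ =>
    (mul_pos Real.pi_pos (nsq_pos _ (PP_ne ζ))).ne'

theorem DD_nonneg (ζ : ℂ) : 0 ≤ DD ζ :=
  div_nonneg (nsq_nonneg _) (mul_nonneg Real.pi_pos.le (nsq_nonneg _))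

theorem hv_orth (ζ : ℂ) : ∑ j, hv ζ j * conj (PP ζ j) = 0 := by
  have hn : (nsq (PP ζ) : ℂ) ≠ 0 := by exact_mod_cast (nsq_pos _ (PP_ne ζ)).ne'
  simp only [hv, sub_mul, Finset.sum_sub_distrib, mul_assoc, ← Finset.mul_sum, nsq_cast, lam]
  field_simp
  ring

theorem density_eq (a : Fin 4 → Fin 4 → (Fin 4 → ℂ) → ℂ) (ζ : ℂ)
    (h1 : ∀ l, ∑ j, a j l (PP ζ) * PP ζ j = 0) (h2 : ∀ j, ∑ l, a j l (PP ζ) * conj (PP ζ l) = 0) :
    density a phi ζ = 2 * ∑ j, ∑ l, a j l (PP ζ) * hv ζ j * conj (hv ζ l) := by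
  unfold density
  simp only [deriv_PP]
  congr 1
  exact form_hor (fun j l => a j l (PP ζ)) (PP ζ) (dP ζ) (lam ζ) h1 h2

theorem density_fs (ζ : ℂ) : density fs phi ζ = (DD ζ : ℂ) := by
  rw [density_eq fs ζ (fs_hor₁ _) (fs_hor₂ _), fs_form _ _ (PP_ne ζ) (hv_orth ζ)]
  rfl

theorem hv_le (ζ c : ℂ) : nsq (hv ζ) ≤ nsq (fun j => dP ζ j - c * PP ζ j) := by
  have := nsq_min (PP ζ) (hv ζ) (lam ζ - c) (hv_orth ζ)
  convert this using 3
  simp only [hv]
  ring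

theorem DD_upper (ζ : ℂ) : DD ζ ≤ (41 + 25 * C0 ^ 2) / Real.pi * (1 + ζ.re ^ 2)⁻¹ := by
  have hpi := Real.pi_pos
  have hC := C0_nonneg
  have m3 := mu_gt
  have m4 := mu_lt
  have hn := nsq_pos _ (PP_ne ζ)
  have hmu : ‖(mu : ℂ)‖ ≤ 4 := by
    rw [Complex.norm_real, Real.norm_eq_abs, abs_of_pos (by linarith)]; linarith
  suffices h : nsq (hv ζ) * (1 + ζ.re ^ 2) ≤ (41 + 25 * C0 ^ 2) * nsq (PP ζ) by
    unfold DD
    rw [div_le_iff₀ (by positivity)]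
    have h0 : 0 < 1 + ζ.re ^ 2 := by positivity
    calc nsq (hv ζ) = nsq (hv ζ) * (1 + ζ.re ^ 2) * (1 + ζ.re ^ 2)⁻¹ := by field_simp
      _ ≤ (41 + 25 * C0 ^ 2) * nsq (PP ζ) * (1 + ζ.re ^ 2)⁻¹ := by gcongr
      _ = _ := by field_simp
  rcases le_total 0 ζ.re with hs | hs
  · have h1 := hv_le ζ 1
    have hF := ser_bound cf small_cf ζ 0 le_rfl (by simpa using hs)
    have hG := ser_bound cg small_cg ζ 0 le_rfl (by simpa using hs)
    simp only [mul_zero, Real.exp_zero, mul_one] at hF hG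
    have he : ‖exp (-(mu : ℂ) * ζ)‖ ≤ 1 := by
      rw [Complex.norm_exp, Real.exp_le_one_iff]
      simp only [neg_mul, neg_re, mul_re, ofReal_re, ofReal_im, zero_mul, sub_zero]
      nlinarith
    have c2 : ‖-(mu : ℂ) * exp (-(mu : ℂ) * ζ) - 1 * exp (-(mu : ℂ) * ζ)‖ ≤ 5 := by
      refine (norm_sub_le _ _).trans ?_
      rw [norm_mul, norm_neg, one_mul]
      nlinarith [norm_nonneg (mu : ℂ), norm_nonneg (exp (-(mu : ℂ) * ζ))]
    have c3 : ‖ser cg (base ζ) - 1 * ser cf (base ζ)‖ ≤ 2 * C0 := by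
      refine (norm_sub_le _ _).trans ?_
      rw [one_mul]
      linarith
    have h2 : nsq (fun j => dP ζ j - 1 * PP ζ j) ≤ 41 + 25 * C0 ^ 2 := by
      have d2 := pow_le_pow_left₀ (norm_nonneg _) c2 2
      have d3 := pow_le_pow_left₀ (norm_nonneg _) c3 2
      simp only [nsq, Fin.sum_univ_four, dP_eq, PP_eq, Matrix.cons_val_zero, Matrix.cons_val_one,
        Matrix.cons_val]
      simp only [one_mul, sub_self, zero_sub, norm_neg, norm_one, norm_zero] at *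
      nlinarith
    have h3 : 1 + ζ.re ^ 2 ≤ nsq (PP ζ) := by
      refine le_trans ?_ (le_nsq _ 1)
      simp only [PP_eq, Matrix.cons_val_one, Matrix.cons_val_zero, Complex.norm_exp]
      have := Real.add_one_le_exp ζ.re
      nlinarith
    exact mul_le_mul (h1.trans h2) h3 (by positivity) (by positivity)
  · have h1 := hv_le ζ (-(mu : ℂ))
    have hF := ser_bound cf small_cf ζ (-ζ.re) (by linarith) (by simp)
    have hG := ser_bound cg small_cg ζ (-ζ.re) (by linarith) (by simp)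
    set E := Real.exp (2 * -ζ.re) with hE
    have hE1 : 1 ≤ E := Real.one_le_exp (by linarith)
    have he : ‖exp ζ‖ ≤ 1 := by
      rw [Complex.norm_exp, Real.exp_le_one_iff]
      exact hs
    have c1 : ‖exp ζ - -(mu : ℂ) * exp ζ‖ ≤ 5 := by
      refine (norm_sub_le _ _).trans ?_
      rw [norm_mul, norm_neg]
      nlinarith [norm_nonneg (mu : ℂ), norm_nonneg (exp ζ)]
    have c3 : ‖ser cg (base ζ) - -(mu : ℂ) * ser cf (base ζ)‖ ≤ 5 * C0 * E := by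
      refine (norm_sub_le _ _).trans ?_
      rw [norm_mul, norm_neg]
      nlinarith [norm_nonneg (mu : ℂ), norm_nonneg (ser cf (base ζ))]
    have h2 : nsq (fun j => dP ζ j - -(mu : ℂ) * PP ζ j) ≤ (41 + 25 * C0 ^ 2) * E ^ 2 := by
      have d0 := pow_le_pow_left₀ (norm_nonneg _) hmu 2
      have d1 := pow_le_pow_left₀ (norm_nonneg _) c1 2
      have d3 := pow_le_pow_left₀ (norm_nonneg _) c3 2
      have d4 : 1 ≤ E ^ 2 := one_le_pow₀ hE1
      simp only [nsq, Fin.sum_univ_four, dP_eq, PP_eq, Matrix.cons_val_zero, Matrix.cons_val_one,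
        Matrix.cons_val]
      simp only [mul_one, sub_self, zero_sub, norm_neg, norm_zero] at *
      nlinarith
    have h3 : E ^ 2 * (1 + ζ.re ^ 2) ≤ nsq (PP ζ) := by
      refine le_trans ?_ (le_nsq _ 2)
      simp only [PP_eq, Matrix.cons_val, Complex.norm_exp]
      simp only [neg_mul, neg_re, mul_re, ofReal_re, ofReal_im, zero_mul, sub_zero]
      have a1 : 1 + ζ.re ^ 2 ≤ Real.exp (-ζ.re) ^ 2 := by
        have := Real.add_one_le_exp (-ζ.re)
        nlinarith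
      have a2 : E * Real.exp (-ζ.re) ≤ Real.exp (-(mu * ζ.re)) := by
        rw [hE, ← Real.exp_add, Real.exp_le_exp]
        nlinarith
      calc _ ≤ E ^ 2 * Real.exp (-ζ.re) ^ 2 := by gcongr
        _ = (E * Real.exp (-ζ.re)) ^ 2 := by ring
        _ ≤ _ := by gcongr
    calc _ ≤ (41 + 25 * C0 ^ 2) * E ^ 2 * (1 + ζ.re ^ 2) := by gcongr; exact h1.trans h2
      _ = (41 + 25 * C0 ^ 2) * (E ^ 2 * (1 + ζ.re ^ 2)) := by ring
      _ ≤ _ := by gcongr

theorem phi_strip (ζ : ℂ) (h0 : 0 < ζ.re) (h1 : ζ.re < 1) (i : Fin 3) : ‖phi ζ i‖ ≤ 3 + C0 := by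
  have hC := C0_nonneg
  have m3 := mu_gt
  fin_cases i
  · change ‖exp ζ‖ ≤ _
    rw [Complex.norm_exp]
    have := Real.exp_le_exp.2 h1.le
    have := Real.exp_one_lt_d9
    linarith
  · change ‖exp (-(mu : ℂ) * ζ)‖ ≤ _
    have he : ‖exp (-(mu : ℂ) * ζ)‖ ≤ 1 := by
      rw [Complex.norm_exp, Real.exp_le_one_iff]
      simp only [neg_mul, neg_re, mul_re, ofReal_re, ofReal_im, zero_mul, sub_zero]
      nlinarith
    linarith
  · change ‖ser cf (base ζ)‖ ≤ _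
    have hF := ser_bound cf small_cf ζ 0 le_rfl (by simpa using h0.le)
    simp only [mul_zero, Real.exp_zero, mul_one] at hF
    linarith

theorem DD_lower (ζ : ℂ) (h0 : 0 < ζ.re) (h1 : ζ.re < 1) :
    1 / (Real.pi * (4 * (3 + C0) ^ 2) ^ 2) ≤ DD ζ := by
  have hpi := Real.pi_pos
  have hC := C0_nonneg
  have hn := nsq_pos _ (PP_ne ζ)
  have a1 : nsq (PP ζ) ≤ 4 * (3 + C0) ^ 2 := by
    have b0 := pow_le_pow_left₀ (norm_nonneg _) (phi_strip ζ h0 h1 0) 2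
    have b1 := pow_le_pow_left₀ (norm_nonneg _) (phi_strip ζ h0 h1 1) 2
    have b2 := pow_le_pow_left₀ (norm_nonneg _) (phi_strip ζ h0 h1 2) 2
    have e : nsq (PP ζ) = 1 + ‖phi ζ 0‖ ^ 2 + ‖phi ζ 1‖ ^ 2 + ‖phi ζ 2‖ ^ 2 := by
      simp only [nsq, Fin.sum_univ_four]
      congr 3
      simp [PP_eq]
    nlinarith
  have a2 : 1 ≤ nsq (PP ζ) * nsq (hv ζ) := by
    have e : PP ζ 0 * hv ζ 1 - PP ζ 1 * hv ζ 0 = exp ζ := by
      simp only [hv, PP_eq, dP_eq, Matrix.cons_val_zero, Matrix.cons_val_one]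
      ring
    have b1 : 1 ≤ ‖exp ζ‖ := by
      rw [Complex.norm_exp]
      exact Real.one_le_exp h0.le
    have b2 : 1 ≤ ‖PP ζ 0‖ * ‖hv ζ 1‖ + ‖PP ζ 1‖ * ‖hv ζ 0‖ := by
      rw [← e] at b1
      refine b1.trans ((norm_sub_le _ _).trans ?_)
      rw [norm_mul, norm_mul]
    have b3 : ‖PP ζ 0‖ ^ 2 + ‖PP ζ 1‖ ^ 2 ≤ nsq (PP ζ) := by
      simp only [nsq, Fin.sum_univ_four]
      nlinarith [sq_nonneg ‖PP ζ 2‖, sq_nonneg ‖PP ζ 3‖]
    have b4 : ‖hv ζ 0‖ ^ 2 + ‖hv ζ 1‖ ^ 2 ≤ nsq (hv ζ) := by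
      simp only [nsq, Fin.sum_univ_four]
      nlinarith [sq_nonneg ‖hv ζ 2‖, sq_nonneg ‖hv ζ 3‖]
    have b5 := mul_le_mul b3 b4 (by positivity) hn.le
    nlinarith [sq_nonneg (‖PP ζ 0‖ * ‖hv ζ 0‖ - ‖PP ζ 1‖ * ‖hv ζ 1‖)]
  unfold DD
  rw [div_le_div_iff₀ (by positivity) (by positivity)]
  have a3 := nsq_nonneg (hv ζ)
  calc 1 * (Real.pi * nsq (PP ζ)) ≤ nsq (PP ζ) * nsq (hv ζ) * (Real.pi * nsq (PP ζ)) := by gcongr
    _ = nsq (hv ζ) * (Real.pi * nsq (PP ζ) ^ 2) := by ring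
    _ ≤ _ := by gcongr

end Pool.Agent.H651Z.Nev
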