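import Pool.Agent.H651Z.Nev.Dens
import Pool.Agent.H651Z.Nev.Alg

set_option autoImplicit false

open Filter Topology Complex Metric
open scoped ComplexConjugate ContDiff

noncomputable section

namespace Pool.Agent.H651Z.Nev

abbrev Sph : Type := sphere (0 : Fin 4 → ℂ) 1
abbrev EE : Type := C(Sph, Fin 4 → Fin 4 → ℂ)

theorem normPP_pos (ζ : ℂ) : 0 < ‖PP ζ‖ := norm_pos_iff.2 (PP_ne ζ)

def nu (ζ : ℂ) : Sph := ⟨((‖PP ζ‖⁻¹ : ℝ) : ℂ) • PP ζ, by
  have := normPP_pos ζ
  rw [mem_sphere_zero_iff_norm, norm_smul, Complex.norm_real, norm_inv, norm_norm]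
  field_simp⟩

theorem nu_cont : Continuous nu :=
  Continuous.subtype_mk ((continuous_ofReal.comp
    (PP_cont.norm.inv₀ fun ζ => (normPP_pos ζ).ne')).smul PP_cont) _

def hb (b : EE) (ζ : ℂ) : ℂ :=
  2 * ∑ j, ∑ l, ((‖PP ζ‖⁻¹ ^ 2 : ℝ) : ℂ) * b (nu ζ) j l * hv ζ j * conj (hv ζ l)

theorem hb_cont (b : EE) : Continuous (hb b) := by
  have h1 := hv_cont
  have h2 : Continuous fun ζ => b (nu ζ) := b.continuous.comp nu_cont
  have h3 : Continuous fun ζ => ‖PP ζ‖⁻¹ := PP_cont.norm.inv₀ fun ζ => (normPP_pos ζ).ne'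
  refine continuous_const.mul (continuous_finsetSum _ fun j _ => continuous_finsetSum _ fun l _ =>
    ?_)
  exact (((continuous_ofReal.comp (h3.pow 2)).mul ((continuous_apply l).comp
    ((continuous_apply j).comp h2))).mul ((continuous_apply j).comp h1)).mul
    (Complex.continuous_conj.comp ((continuous_apply l).comp h1))

theorem hb_le (b : EE) (ζ : ℂ) : ‖hb b ζ‖ ≤ 128 * Real.pi * ‖b‖ * DD ζ := by
  have hp := normPP_pos ζ
  have hn := nsq_pos _ (PP_ne ζ)
  have hpi := Real.pi_pos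
  have hv0 := nsq_nonneg (hv ζ)
  have h1 : ∀ j l, ‖((‖PP ζ‖⁻¹ ^ 2 : ℝ) : ℂ) * b (nu ζ) j l * hv ζ j * conj (hv ζ l)‖ ≤
      4 / nsq (PP ζ) * ‖b‖ * nsq (hv ζ) := by
    intro j l
    rw [norm_mul, norm_mul, norm_mul, Complex.norm_real, Complex.norm_conj, Real.norm_eq_abs,
      abs_of_nonneg (by positivity), mul_assoc]
    have a1 : ‖PP ζ‖⁻¹ ^ 2 ≤ 4 / nsq (PP ζ) := by
      rw [inv_pow, inv_eq_one_div, div_le_div_iff₀ (by positivity) hn]
      linarith [nsq_le (PP ζ)]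
    have a2 : ‖b (nu ζ) j l‖ ≤ ‖b‖ :=
      ((norm_le_pi_norm _ l).trans (norm_le_pi_norm _ j)).trans (b.norm_coe_le_norm _)
    have a3 : ‖hv ζ j‖ * ‖hv ζ l‖ ≤ nsq (hv ζ) := by
      nlinarith [le_nsq (hv ζ) j, le_nsq (hv ζ) l, sq_nonneg (‖hv ζ j‖ - ‖hv ζ l‖)]
    gcongr
  unfold hb
  rw [norm_mul]
  have h2 := (norm_sum_le _ _).trans (Finset.sum_le_sum fun j (_ : j ∈ Finset.univ) =>
    (norm_sum_le _ _).trans (Finset.sum_le_sum fun l (_ : l ∈ Finset.univ) => h1 j l))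
  simp only [Finset.sum_const, Finset.card_univ, Fintype.card_fin, nsmul_eq_mul] at h2
  calc _ ≤ 2 * (((4 : ℕ) : ℝ) * (((4 : ℕ) : ℝ) * (4 / nsq (PP ζ) * ‖b‖ * nsq (hv ζ)))) := by
        gcongr; simp
    _ = _ := by
        unfold DD
        push_cast
        field_simp
        ring

def toE (θ : TestForm 3) : EE := ⟨fun W j l => θ.a j l W, by
  refine continuous_pi fun j => continuous_pi fun l => ?_
  refine (θ.smooth j l).continuousOn.comp_continuous continuous_subtype_val fun W => ?_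
  exact ne_zero_of_mem_unit_sphere W⟩

theorem density_toE (θ : TestForm 3) (ζ : ℂ) : density θ.a phi ζ = hb (toE θ) ζ := by
  rw [density_eq θ.a ζ (fun l => θ.hor₁ l _ (PP_ne ζ)) (fun j => θ.hor₂ j _ (PP_ne ζ))]
  unfold hb
  congr 1
  refine Finset.sum_congr rfl fun j _ => Finset.sum_congr rfl fun l _ => ?_
  have hc : ((‖PP ζ‖⁻¹ : ℝ) : ℂ) ≠ 0 := by
    exact_mod_cast (inv_pos.2 (normPP_pos ζ)).ne'
  rw [← θ.inv j l _ _ hc (PP_ne ζ), Complex.conj_ofReal]
  congr 3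
  push_cast
  ring

def TT (r : ℝ) : ℝ := nv DD r

theorem charT_eq (r : ℝ) : charT phi r = (TT r : ℂ) := by
  rw [TT, ← nv_ofReal, charT, funext density_fs]
  rfl

def c1 : ℝ := 1 / (Real.pi * (4 * (3 + C0) ^ 2) ^ 2)
def c2 : ℝ := 2 * Real.pi * ((41 + 25 * C0 ^ 2) / Real.pi)

theorem c1_pos : 0 < c1 := by
  have := C0_nonneg
  have := Real.pi_pos
  unfold c1
  positivity

theorem c2_pos : 0 < c2 := by
  have := Real.pi_pos
  unfold c2
  positivity

theorem TT_pos (r : ℝ) (hr : 4 ≤ r) : 0 < TT r := by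
  have := nv_lower DD DD_cont DD_nonneg c1 c1_pos.le DD_lower r hr
  have h := c1_pos
  exact lt_of_lt_of_le (by positivity) this

theorem TT_le (r : ℝ) (hr : 0 ≤ r) : TT r ≤ c2 * r :=
  nv_upper DD DD_cont DD_nonneg _ DD_upper r hr

def Lam0 (r : ℝ) (hr : 4 ≤ r) : EE →ₗ[ℂ] ℂ where
  toFun b := nv (hb b) r / TT r
  map_add' b b' := by
    rw [← add_div, ← nv_add _ _ (hb_cont b) (hb_cont b') r (by linarith)]
    congr 2
    funext ζ
    simp only [hb, ContinuousMap.add_apply, Pi.add_apply, mul_add, add_mul, Finset.sum_add_distrib]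
  map_smul' c b := by
    rw [RingHom.id_apply, smul_eq_mul, ← mul_div_assoc, ← nv_const_mul]
    congr 2
    funext ζ
    simp only [hb, ContinuousMap.smul_apply, Pi.smul_apply, smul_eq_mul, Finset.mul_sum]
    refine Finset.sum_congr rfl fun j _ => Finset.sum_congr rfl fun l _ => ?_
    ring

theorem Lam0_le (r : ℝ) (hr : 4 ≤ r) (b : EE) : ‖Lam0 r hr b‖ ≤ 128 * Real.pi * ‖b‖ := by
  have h := nv_norm_le (hb b) _ (continuous_const.mul DD_cont) (hb_le b) r (by linarith)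
  have h' : ‖nv (hb b) r‖ ≤ 128 * Real.pi * ‖b‖ * TT r := by
    rw [TT, ← nv_const_mul_real]
    exact h
  have hT := TT_pos r hr
  change ‖nv (hb b) r / TT r‖ ≤ _
  rw [norm_div, Complex.norm_real, Real.norm_eq_abs, abs_of_pos hT, div_le_iff₀ hT]
  exact h'

def Lam (n : ℕ) : EE →L[ℂ] ℂ :=
  (Lam0 ((n : ℝ) + 4) (by linarith [n.cast_nonneg (α := ℝ)])).mkContinuous (128 * Real.pi)
    (Lam0_le _ _)

theorem exists_cluster : ∃ τ, IsClusterPoint phi τ := by
  obtain ⟨L, -, ψ, hψ, hL⟩ := WeakDual.isSeqCompact_closedBall ℂ EE 0 (128 * Real.pi)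
    (x := fun n => StrongDual.toWeakDual (Lam n)) (fun n => by
      rw [Set.mem_preimage, mem_closedBall_zero_iff]
      exact LinearMap.mkContinuous_norm_le _ (by positivity) (Lam0_le _ _))
  refine ⟨fun θ => L (toE θ), fun n => (ψ n : ℝ) + 4, ?_, fun θ => ?_⟩
  · exact tendsto_atTop_add_const_right _ _
      (tendsto_natCast_atTop_atTop.comp hψ.tendsto_atTop)
  · have := ((WeakDual.eval_continuous (toE θ)).tendsto L).comp hL
    refine this.congr fun n => ?_
    unfold current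
    rw [charT_eq, funext (density_toE θ)]
    rfl

def aff (W : Fin 4 → ℂ) : Fin 3 → ℂ := fun i => W i.succ / W 0

def cut {p : Fin 3 → ℂ} (χ : ContDiffBump p) (W : Fin 4 → ℂ) : ℝ :=
  if W 0 = 0 then 0 else χ (aff W)

theorem cut_hom {p : Fin 3 → ℂ} (χ : ContDiffBump p) (x : Fin 3 → ℂ) : cut χ (hom x) = χ x := by
  have : aff (hom x) = x := by
    funext i
    simp [aff, hom]
  rw [cut, this, if_neg]
  simp [hom]

theorem cut_smul {p : Fin 3 → ℂ} (χ : ContDiffBump p) (c : ℂ) (hc : c ≠ 0) (W : Fin 4 → ℂ) :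
    cut χ (c • W) = cut χ W := by
  have : aff (c • W) = aff W := by
    funext i
    simp only [aff, Pi.smul_apply, smul_eq_mul]
    exact mul_div_mul_left _ _ hc
  simp [cut, this, hc]

theorem cut_smooth {p : Fin 3 → ℂ} (χ : ContDiffBump p) (W : Fin 4 → ℂ) (hW : W ≠ 0) :
    ContDiffAt ℝ ∞ (cut χ) W := by
  by_cases h0 : W 0 = 0
  · obtain ⟨j, hj⟩ := Function.ne_iff.1 hW
    obtain ⟨i, rfl⟩ : ∃ i : Fin 3, j = i.succ := by
      refine Fin.cases (fun hj => absurd h0 hj) (fun i _ => ⟨i, rfl⟩) j hj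
    have hev : ∀ᶠ V : Fin 4 → ℂ in 𝓝 W, (‖p‖ + χ.rOut) * ‖V 0‖ < ‖V i.succ‖ := by
      refine ContinuousAt.eventually_lt
        (continuous_const.mul (continuous_apply 0).norm).continuousAt
        (continuous_apply i.succ).norm.continuousAt ?_
      simpa [h0] using hj
    refine (contDiffAt_const (c := (0 : ℝ))).congr_of_eventuallyEq (hev.mono fun V hV => ?_)
    by_cases hV0 : V 0 = 0
    · simp [cut, hV0]
    · simp only [cut, if_neg hV0]
      apply χ.zero_of_le_dist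
      have h1 : ‖p‖ + χ.rOut ≤ ‖aff V‖ := by
        refine le_trans ?_ (norm_le_pi_norm _ i)
        rw [aff, norm_div, le_div_iff₀ (norm_pos_iff.2 hV0)]
        exact hV.le
      rw [dist_eq_norm]
      linarith [norm_sub_norm_le (aff V) p]
  · have hev : ∀ᶠ V : Fin 4 → ℂ in 𝓝 W, V 0 ≠ 0 :=
      (continuous_apply 0).continuousAt.eventually_ne h0
    have h1 : ContDiffAt ℝ ∞ aff W := by
      refine contDiffAt_pi.2 fun i => ?_
      simp only [aff, div_eq_mul_inv]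
      exact (contDiffAt_apply ℝ ℂ i.succ W).mul ((contDiffAt_apply ℝ ℂ 0 W).inv h0)
    refine (χ.contDiff.contDiffAt.comp W h1).congr_of_eventuallyEq (hev.mono fun V hV => ?_)
    simp [cut, hV]

theorem fs_smooth (j l : Fin 4) (W : Fin 4 → ℂ) (hW : W ≠ 0) :
    ContDiffAt ℝ ∞ (fs (k := 3) j l) W := by
  have hc : ∀ i : Fin 4, ContDiff ℝ ∞ fun V : Fin 4 → ℂ => conj (V i) := fun i =>
    Complex.conjCLE.contDiff.comp (contDiff_apply ℝ ℂ i)
  have ha : ∀ i : Fin 4, ContDiff ℝ ∞ fun V : Fin 4 → ℂ => V i := fun i => contDiff_apply ℝ ℂ i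
  have hn : ContDiff ℝ ∞ fun V : Fin 4 → ℂ => ∑ i, V i * conj (V i) :=
    ContDiff.sum fun i _ => (ha i).mul (hc i)
  unfold fs
  simp only [div_eq_mul_inv]
  refine ContDiffAt.mul ?_ ((contDiff_const.mul (hn.pow 2)).contDiffAt.inv ?_)
  · refine (ContDiff.sub ?_ ((hc j).mul (ha l))).contDiffAt
    split_ifs
    · exact hn
    · exact contDiff_const
  · have h1 : (nsq W : ℂ) ≠ 0 := by exact_mod_cast (nsq_pos W hW).ne'
    have hp : (Real.pi : ℂ) ≠ 0 := by exact_mod_cast Real.pi_ne_zero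
    rw [← nsq_cast] at h1
    exact mul_ne_zero (mul_ne_zero two_ne_zero hp) (pow_ne_zero 2 h1)

theorem fs_inv (j l : Fin 4) (c : ℂ) (W : Fin 4 → ℂ) (hc : c ≠ 0) (hW : W ≠ 0) :
    c * conj c * fs (k := 3) j l (c • W) = fs (k := 3) j l W := by
  have h1 : (nsq W : ℂ) ≠ 0 := by exact_mod_cast (nsq_pos W hW).ne'
  have hp : (Real.pi : ℂ) ≠ 0 := by exact_mod_cast Real.pi_ne_zero
  have hc' : conj c ≠ 0 := by simpa using hc
  have e : (nsq (c • W) : ℂ) = c * conj c * nsq W := by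
    rw [← nsq_cast, ← nsq_cast, Finset.mul_sum]
    refine Finset.sum_congr rfl fun i _ => ?_
    simp only [Pi.smul_apply, smul_eq_mul, map_mul]
    ring
  rw [fs_eq, fs_eq, e]
  simp only [Pi.smul_apply, smul_eq_mul, map_mul]
  split_ifs
  · field_simp
  · field_simp
    ring

def bumpForm {p : Fin 3 → ℂ} (χ : ContDiffBump p) : TestForm 3 where
  a j l W := (cut χ W : ℂ) * fs j l W
  smooth j l W hW := ((Complex.ofRealCLM.contDiff.contDiffAt.comp W (cut_smooth χ W hW)).mul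
    (fs_smooth j l W hW)).contDiffWithinAt
  inv j l c W hc hW := by
    rw [cut_smul χ c hc, ← fs_inv j l c W hc hW]
    ring
  hor₁ l W _ := by
    simp only [mul_assoc, ← Finset.mul_sum]
    rw [fs_hor₁, mul_zero]
  hor₂ j W _ := by
    simp only [mul_assoc, ← Finset.mul_sum]
    rw [fs_hor₂, mul_zero]

theorem bump_supp {p : Fin 3 → ℂ} (χ : ContDiffBump p) (U : Set (Fin 3 → ℂ))
    (hU : closedBall p χ.rOut ⊆ U) : SupportedIn (bumpForm χ) U := by
  refine ⟨_, isCompact_closedBall p χ.rOut, hU, fun x hx j l => ?_, fun W _ h0 j l => ?_⟩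
  · have : χ x = 0 := χ.zero_of_le_dist (le_of_lt (by simpa using hx))
    simp [bumpForm, cut_hom, this]
  · simp [bumpForm, cut, h0]

theorem bump_current {p : Fin 3 → ℂ} (χ : ContDiffBump p) (r : ℝ) :
    current phi r (bumpForm χ) = ((nv (fun ζ => χ (phi ζ) * DD ζ) r / TT r : ℝ) : ℂ) := by
  have : density (bumpForm χ).a phi = fun ζ => ((χ (phi ζ) * DD ζ : ℝ) : ℂ) := by
    funext ζ
    push_cast
    rw [← density_fs]
    simp only [density, bumpForm, cut_hom, Finset.mul_sum]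
    refine Finset.sum_congr rfl fun j _ => Finset.sum_congr rfl fun l _ => ?_
    ring
  unfold current
  rw [charT_eq, this]
  push_cast
  rw [← nv_ofReal]
  congr 1
  push_cast
  rfl

theorem support_meets (τ : TestForm 3 → ℂ) (hτ : IsClusterPoint phi τ) : ∃ p, InSupport τ p := by
  by_contra hcon
  simp only [InSupport, not_exists, not_forall, not_and, not_not] at hcon
  have hχ : ∀ p : Fin 3 → ℂ, ∃ χ : ContDiffBump p, τ (bumpForm χ) = 0 := by
    intro p
    obtain ⟨U, hU, h⟩ := hcon p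
    obtain ⟨ε, hε, hsub⟩ := nhds_basis_closedBall.mem_iff.1 hU
    exact ⟨⟨ε / 2, ε, by linarith, by linarith⟩, h _ (bump_supp _ U hsub)⟩
  choose χ hχ using hχ
  obtain ⟨s, -, hs⟩ := (isCompact_closedBall (0 : Fin 3 → ℂ) (3 + C0)).elim_nhds_subcover
    (fun p => closedBall p (χ p).rIn) (fun p _ => closedBall_mem_nhds p (χ p).rIn_pos)
  obtain ⟨r, hr, hlim⟩ := hτ
  have hcont : ∀ p, Continuous fun ζ => χ p (phi ζ) * DD ζ := fun p =>
    ((χ p).continuous.comp phi_cont).mul DD_cont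
  have h0 : Tendsto (fun n => ∑ p ∈ s, nv (fun ζ => χ p (phi ζ) * DD ζ) (r n) / TT (r n)) atTop
      (𝓝 (∑ _p ∈ s, 0)) := by
    refine tendsto_finsetSum _ fun p _ => ?_
    have := hlim (bumpForm (χ p))
    rw [hχ p] at this
    simp only [bump_current] at this
    exact (Complex.continuous_re.tendsto 0).comp this
  rw [Finset.sum_const_zero] at h0
  have hpos : 0 < c1 / 4 / c2 := by
    have := c1_pos
    have := c2_pos
    positivity
  obtain ⟨n, h1, h2⟩ := ((h0.eventually_lt_const hpos).and (hr.eventually_ge_atTop 4)).exists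
  rw [← Finset.sum_div, ← nv_sum s _ hcont _ (by linarith), div_lt_iff₀ (TT_pos _ h2)] at h1
  have h3 := nv_lower (fun ζ => ∑ p ∈ s, χ p (phi ζ) * DD ζ)
    (continuous_finsetSum _ fun p _ => hcont p)
    (fun ζ => Finset.sum_nonneg fun p _ => mul_nonneg (χ p).nonneg (DD_nonneg ζ)) c1 c1_pos.le
    (fun ζ a b => by
      have hm : phi ζ ∈ closedBall (0 : Fin 3 → ℂ) (3 + C0) := by
        rw [mem_closedBall_zero_iff, pi_norm_le_iff_of_nonneg (by linarith [C0_nonneg])]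
        exact phi_strip ζ a b
      obtain ⟨p, hp, hp'⟩ := Set.mem_iUnion₂.1 (hs hm)
      refine le_trans ?_ (Finset.single_le_sum (f := fun p => χ p (phi ζ) * DD ζ)
        (fun p _ => mul_nonneg (χ p).nonneg (DD_nonneg ζ)) hp)
      rw [(χ p).one_of_mem_closedBall hp', one_mul]
      exact DD_lower ζ a b) (r n) h2
  have h4 := TT_le (r n) (by linarith)
  have h5 : c1 / 4 / c2 * TT (r n) ≤ c1 / 4 / c2 * (c2 * r n) := by gcongr
  have h6 : c1 / 4 / c2 * (c2 * r n) = c1 / 4 * r n := by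
    have := c2_pos
    field_simp
  linarith

end Pool.Agent.H651Z.Nev
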