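import Pool.Agent.H651Z.Nev.Defs

set_option autoImplicit false

open Filter Topology Complex
open scoped Nat

noncomputable section

namespace Pool.Agent.H651Z.Nev

def mu : ℝ := 2 + √2

theorem mu_irr : Irrational mu := by
  have := irrational_sqrt_two.natCast_add 2
  simpa [mu] using this

theorem mu_gt : 3 < mu := by
  have : (1 : ℝ) < √2 := Real.lt_sqrt_of_sq_lt (by norm_num)
  unfold mu; linarith

theorem mu_lt : mu < 4 := by
  have : √2 < (2 : ℝ) := (Real.sqrt_lt' (by norm_num)).2 (by norm_num)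
  unfold mu; linarith

def mm (n : ℕ) : ℕ := ⌊mu * (n + 1)⌋₊ - 1

def eps (n : ℕ) : ℝ := mm n - mu * (n + 1)

theorem mm_cast (n : ℕ) : (mm n : ℝ) = ⌊mu * (n + 1)⌋₊ - 1 := by
  have h : 1 ≤ ⌊mu * (n + 1)⌋₊ := by
    apply Nat.le_floor
    have := mu_gt
    have : (0 : ℝ) ≤ n := n.cast_nonneg
    push_cast
    nlinarith
  unfold mm
  rw [Nat.cast_sub h]
  simp

theorem eps_le (n : ℕ) : eps n ≤ -1 := by
  have h : (⌊mu * (n + 1)⌋₊ : ℝ) ≤ mu * (n + 1) :=
    Nat.floor_le (by have := mu_gt; positivity)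
  unfold eps
  rw [mm_cast]
  linarith

theorem eps_gt (n : ℕ) : -2 < eps n := by
  have h := Nat.lt_floor_add_one (mu * (n + 1))
  unfold eps
  rw [mm_cast]
  linarith

theorem mm_le (n : ℕ) : mm n ≤ 4 * (n + 1) := by
  have h1 := eps_le n
  have h2 := mu_lt
  have h3 : (0 : ℝ) ≤ n := n.cast_nonneg
  unfold eps at h1
  have : (mm n : ℝ) ≤ 4 * (n + 1) := by nlinarith
  exact_mod_cast this

/-- the lacunary two-variable series -/
def ser (c : ℕ → ℝ) (w : Fin 3 → ℂ) : ℂ :=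
  ∑' n, (c n : ℂ) * (w 0 ^ mm n * w 1 ^ (n + 1))

def Small (c : ℕ → ℝ) : Prop := ∀ n, |c n| ≤ 1 / (n + 1)!

theorem summable_fact (R : ℝ) : Summable fun n : ℕ => R ^ (n + 1) / ((n + 1)! : ℝ) :=
  (summable_nat_add_iff 1).2 (Real.summable_pow_div_factorial R)

theorem ser_diff (c : ℕ → ℝ) (hc : Small c) : Differentiable ℂ (ser c) := by
  intro x
  set R : ℝ := ‖x‖ + 2 with hR
  have hR1 : 1 ≤ R := by have := norm_nonneg x; linarith
  have hR0 : 0 ≤ R := by linarith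
  let p0 : (Fin 3 → ℂ) →L[ℂ] ℂ := ContinuousLinearMap.proj 0
  let p1 : (Fin 3 → ℂ) →L[ℂ] ℂ := ContinuousLinearMap.proj 1
  have hp0 : ‖p0‖ ≤ 1 := ContinuousLinearMap.opNorm_le_bound _ zero_le_one fun w => by
    simpa [p0] using norm_le_pi_norm w 0
  have hp1 : ‖p1‖ ≤ 1 := ContinuousLinearMap.opNorm_le_bound _ zero_le_one fun w => by
    simpa [p1] using norm_le_pi_norm w 1
  let f' : ℕ → (Fin 3 → ℂ) → ((Fin 3 → ℂ) →L[ℂ] ℂ) := fun n w =>
    (c n : ℂ) • (w 0 ^ mm n • (((n + 1 : ℕ) • w 1 ^ n) • p1) +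
      w 1 ^ (n + 1) • ((mm n • w 0 ^ (mm n - 1)) • p0))
  have key := hasFDerivAt_tsum_of_isPreconnected (𝕜 := ℂ)
    (f := fun n (w : Fin 3 → ℂ) => (c n : ℂ) * (w 0 ^ mm n * w 1 ^ (n + 1))) (f' := f')
    (u := fun n => 5 * ((2 * R ^ 5) ^ (n + 1) / ((n + 1)! : ℝ))) (s := Metric.ball 0 R)
    (x₀ := 0) (x := x) ((summable_fact _).mul_left 5) Metric.isOpen_ball
    (convex_ball _ _).isPreconnected ?_ ?_ (Metric.mem_ball_self (by linarith)) ?_
    (by simp [hR])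
  · exact key.differentiableAt
  · intro n w _
    have h0 : HasFDerivAt (fun w : Fin 3 → ℂ => w 0) p0 w := p0.hasFDerivAt
    have h1 : HasFDerivAt (fun w : Fin 3 → ℂ => w 1) p1 w := p1.hasFDerivAt
    exact ((h0.pow (mm n)).mul (h1.pow (n + 1))).const_mul (c n : ℂ)
  · intro n w hw
    have hw' : ‖w‖ ≤ R := by simpa using (mem_ball_zero_iff.1 hw).le
    have h0 : ‖w 0‖ ≤ R := (norm_le_pi_norm w 0).trans hw'
    have h1 : ‖w 1‖ ≤ R := (norm_le_pi_norm w 1).trans hw'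
    have hm := mm_le n
    have a1 : ‖w 0‖ ^ mm n ≤ R ^ (4 * (n + 1)) :=
      (pow_le_pow_left₀ (norm_nonneg _) h0 _).trans (pow_le_pow_right₀ hR1 hm)
    have a2 : ‖w 0‖ ^ (mm n - 1) ≤ R ^ (4 * (n + 1)) :=
      (pow_le_pow_left₀ (norm_nonneg _) h0 _).trans (pow_le_pow_right₀ hR1 (by omega))
    have a3 : ‖w 1‖ ^ n ≤ R ^ (n + 1) :=
      (pow_le_pow_left₀ (norm_nonneg _) h1 _).trans (pow_le_pow_right₀ hR1 (by omega))
    have a4 : ‖w 1‖ ^ (n + 1) ≤ R ^ (n + 1) := pow_le_pow_left₀ (norm_nonneg _) h1 _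
    have a5 : ((n + 1 : ℕ) : ℝ) ≤ 2 ^ (n + 1) := by exact_mod_cast Nat.lt_two_pow_self.le
    have a6 : (mm n : ℝ) ≤ 4 * 2 ^ (n + 1) := by
      have : (mm n : ℝ) ≤ 4 * ((n + 1 : ℕ) : ℝ) := by exact_mod_cast hm
      linarith
    have b1 : ‖w 0 ^ mm n • (((n + 1 : ℕ) • w 1 ^ n) • p1)‖ ≤
        R ^ (4 * (n + 1)) * (2 ^ (n + 1) * R ^ (n + 1) * 1) := by
      rw [norm_smul, norm_smul, nsmul_eq_mul, norm_mul, norm_pow, norm_pow, Complex.norm_natCast]
      gcongr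
    have b2 : ‖w 1 ^ (n + 1) • ((mm n • w 0 ^ (mm n - 1)) • p0)‖ ≤
        R ^ (n + 1) * (4 * 2 ^ (n + 1) * R ^ (4 * (n + 1)) * 1) := by
      rw [norm_smul, norm_smul, nsmul_eq_mul, norm_mul, norm_pow, norm_pow, Complex.norm_natCast]
      gcongr
    have b3 := (norm_add_le _ _).trans (add_le_add b1 b2)
    simp only [f']
    rw [norm_smul, Complex.norm_real, Real.norm_eq_abs]
    calc _ ≤ 1 / ((n + 1)! : ℝ) * (R ^ (4 * (n + 1)) * (2 ^ (n + 1) * R ^ (n + 1) * 1) +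
          R ^ (n + 1) * (4 * 2 ^ (n + 1) * R ^ (4 * (n + 1)) * 1)) :=
          mul_le_mul (hc n) b3 (norm_nonneg _) (by positivity)
      _ = _ := by
          rw [mul_pow, ← pow_mul]
          ring
  · simp

def cg (n : ℕ) : ℝ := 1 / (n + 1)!
def cf (n : ℕ) : ℝ := 1 / (n + 1)! / eps n

theorem small_cg : Small cg := fun n => by
  unfold cg
  rw [abs_of_nonneg (by positivity)]

theorem small_cf : Small cf := fun n => by
  unfold cf
  rw [abs_div, abs_of_nonneg (by positivity)]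
  have := eps_le n
  apply div_le_self (by positivity)
  rw [abs_of_neg (by linarith)]
  linarith

/-- the vector field -/
def ZZ (w : Fin 3 → ℂ) : Fin 3 → ℂ := ![w 0, -(mu : ℂ) * w 1, ser cg w]

def base (ζ : ℂ) : Fin 3 → ℂ := ![exp ζ, exp (-(mu : ℂ) * ζ), 0]

/-- the entire curve -/
def phi (ζ : ℂ) : Fin 3 → ℂ := ![exp ζ, exp (-(mu : ℂ) * ζ), ser cf (base ζ)]

theorem ser_congr (c : ℕ → ℝ) {w w' : Fin 3 → ℂ} (h0 : w 0 = w' 0) (h1 : w 1 = w' 1) :
    ser c w = ser c w' := by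
  unfold ser
  rw [h0, h1]

theorem ser_base (c : ℕ → ℝ) (ζ : ℂ) :
    ser c (base ζ) = ∑' n, (c n : ℂ) * exp ((eps n : ℂ) * ζ) := by
  unfold ser
  congr 1
  funext n
  congr 1
  simp only [base, Matrix.cons_val_zero, Matrix.cons_val_one]
  rw [← Complex.exp_nat_mul, ← Complex.exp_nat_mul, ← Complex.exp_add]
  congr 1
  simp only [eps]
  push_cast
  ring

def C0 : ℝ := ∑' n : ℕ, (1 : ℝ) ^ (n + 1) / ((n + 1)! : ℝ)

theorem C0_nonneg : 0 ≤ C0 := tsum_nonneg fun n => by positivity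

theorem term_bound (c : ℕ → ℝ) (hc : Small c) (n : ℕ) (ζ : ℂ) (s : ℝ) (hs0 : 0 ≤ s)
    (hs : -s ≤ ζ.re) :
    ‖(c n : ℂ) * exp ((eps n : ℂ) * ζ)‖ ≤ 1 ^ (n + 1) / ((n + 1)! : ℝ) * Real.exp (2 * s) := by
  rw [norm_mul, Complex.norm_real, Real.norm_eq_abs, Complex.norm_exp, one_pow]
  refine mul_le_mul (hc n) (Real.exp_le_exp.2 ?_) (Real.exp_pos _).le (by positivity)
  have h1 := eps_le n
  have h2 := eps_gt n
  simp only [mul_re, ofReal_re, ofReal_im, zero_mul, sub_zero]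
  nlinarith

theorem ser_bound (c : ℕ → ℝ) (hc : Small c) (ζ : ℂ) (s : ℝ) (hs0 : 0 ≤ s) (hs : -s ≤ ζ.re) :
    ‖ser c (base ζ)‖ ≤ C0 * Real.exp (2 * s) := by
  rw [ser_base]
  exact tsum_of_norm_bounded ((summable_fact 1).hasSum.mul_right _)
    fun n => term_bound c hc n ζ s hs0 hs

theorem hasDerivAt_F (ζ : ℂ) : HasDerivAt (fun t => ser cf (base t)) (ser cg (base ζ)) ζ := by
  simp only [ser_base]
  have key := hasDerivAt_tsum_of_isPreconnected (𝕜 := ℂ)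
    (g := fun n (t : ℂ) => (cf n : ℂ) * exp ((eps n : ℂ) * t))
    (g' := fun n (t : ℂ) => (cg n : ℂ) * exp ((eps n : ℂ) * t))
    (u := fun n => 1 ^ (n + 1) / ((n + 1)! : ℝ) * Real.exp (2 * (‖ζ‖ + 1)))
    (t := Metric.ball 0 (‖ζ‖ + 1)) (y₀ := 0) (y := ζ) ((summable_fact 1).mul_right _)
    Metric.isOpen_ball (convex_ball _ _).isPreconnected ?_ ?_
    (Metric.mem_ball_self (by positivity)) ?_ (by simp)
  · exact key
  · intro n t _
    have h := (((hasDerivAt_id' t).const_mul (eps n : ℂ)).cexp).const_mul (cf n : ℂ)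
    have he : (eps n : ℂ) ≠ 0 := by
      have := eps_le n
      exact_mod_cast (by linarith : eps n ≠ 0)
    refine h.congr_deriv ?_
    simp only [cf, cg]
    push_cast
    field_simp
  · intro n t ht
    refine term_bound cg small_cg n t _ (by positivity) ?_
    have h1 := (mem_ball_zero_iff.1 ht).le
    have h2 := abs_re_le_norm t
    have h3 := neg_abs_le t.re
    linarith
  · exact Summable.of_norm_bounded ((summable_fact 1).mul_right _)
      fun n => term_bound cf small_cf n 0 0 le_rfl (by simp)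

theorem ZZ_phi (ζ : ℂ) :
    ZZ (phi ζ) = ![exp ζ, -(mu : ℂ) * exp (-(mu : ℂ) * ζ), ser cg (base ζ)] := by
  unfold ZZ
  rw [ser_congr cg (w := phi ζ) (w' := base ζ) rfl rfl]
  rfl

theorem hasDerivAt_phi (ζ : ℂ) : HasDerivAt phi (ZZ (phi ζ)) ζ := by
  rw [ZZ_phi, hasDerivAt_pi]
  intro i
  fin_cases i
  · exact Complex.hasDerivAt_exp ζ
  · have h := ((hasDerivAt_id' ζ).const_mul (-(mu : ℂ))).cexp
    refine h.congr_deriv ?_
    simp [mul_comm]
  · exact hasDerivAt_F ζ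

theorem ZZ_diff : Differentiable ℂ ZZ := by
  rw [differentiable_pi]
  intro i
  fin_cases i
  · exact differentiable_apply 0
  · exact (differentiable_apply (𝕜 := ℂ) (1 : Fin 3)).const_mul (-(mu : ℂ))
  · exact ser_diff cg small_cg

theorem ZZ_ne (ζ : ℂ) : ZZ (phi ζ) ≠ 0 := by
  intro h
  have := congrFun h 0
  rw [ZZ_phi] at this
  exact Complex.exp_ne_zero ζ this

end Pool.Agent.H651Z.Nev
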